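import Pool.Agent.H17.CI.TargetsF
import Pool.Agent.H92.VG.VD

/-!
# MP_70ba79_ag: row DZT of the board `ci_modules`: degrees, regularity, constants
-/

set_option autoImplicit false

namespace Pool.Agent.H52.CI

open MvPolynomial SC Pool.Agent.H27.LV Pool.Agent.H17.VG Pool.Agent.H17.CI
open Pool.Agent.H92.VG (ge_form)

theorem pf_DZT (hPTT : T_PTT) : T_DZT := by
  intro k K _ _ _ _ _ _ htr n ι _ _ e Z c z hz
  obtain ⟨hon, hinv⟩ := (hPTT k K n ι e Z c z).1 hz
  obtain ⟨x, hx⟩ : ∃ x : Fin (n + 1) → K, x = Fin.cons 1 fun a => z (Sum.inl a) := ⟨_, rfl⟩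
  rw [← hx] at hon hinv
  rw [← hx]
  have hx0 : x 0 = 1 := by rw [hx]; rfl
  have hxs : ∀ a : Fin n, x a.succ = z (Sum.inl a) := fun a => by rw [hx]; rfl
  obtain ⟨u, hu⟩ : ∃ u : ι → K, u = fun i => eval x (upT K (frmT c) i) := ⟨_, rfl⟩
  have hui : ∀ i, eval x (upT K (frmT c) i) = u i := fun i => by rw [hu]
  simp only [hui] at hon hinv ⊢
  have hu0 : ∀ i, i ∉ Z → u i ≠ 0 := fun i hi h0 => hi ((hon i).1 h0)
  have huge : ∀ (v : DV k K) i, ge v (-(((e i + 1 : ℕ) : ℤ) * poleOrder v x)) (u i) := by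
    intro v i
    rw [← hui]
    exact ge_form htr (frm_homog fun M => c ⟨i, M⟩) x v
  have huord : ∀ (v : DV k K) i, i ∉ Z →
      0 ≤ v.ord (u i) + ((e i + 1 : ℕ) : ℤ) * poleOrder v x := by
    intro v i hi
    have h1 := (huge v i).resolve_left (hu0 i hi)
    linarith
  refine ⟨?_, ?_, ?_⟩
  · intro v hv
    have hp : poleOrder v x = 0 := by
      rw [← Nat.le_zero]
      refine poleOrder_le v x 0 fun j => ?_
      simp only [Nat.cast_zero, neg_zero]
      refine Fin.cases ?_ (fun a => ?_) j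
      · rw [hx0, v.ord_one]
      · rw [hxs]
        exact hv _
    refine ⟨hp, fun i hi => ?_⟩
    have h1 := huord v i hi
    rw [hp] at h1
    have h2 := hv (Sum.inr ⟨i, hi⟩)
    rw [hinv ⟨i, hi⟩, v.ord_inv] at h2
    simp only [Nat.cast_zero, mul_zero, add_zero] at h1
    have h3 : 0 ≤ -v.ord (u i) := h2
    omega
  · -- the degree
    have hpole : ∀ v : DV k K, (poleOrder v z : ℤ) ≤ poleOrder v x +
        ∑ i : {i // i ∉ Z}, (v.ord (u i.1) + ((e i.1 + 1 : ℕ) : ℤ) * poleOrder v x) := by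
      intro v
      obtain ⟨s, hs⟩ : ∃ s : ℤ, s = ∑ i : {i // i ∉ Z},
        (v.ord (u i.1) + ((e i.1 + 1 : ℕ) : ℤ) * poleOrder v x) := ⟨_, rfl⟩
      have hs0 : 0 ≤ s := by
        rw [hs]
        exact Finset.sum_nonneg fun i _ => huord v i.1 i.2
      rw [← hs]
      have h2 := poleOrder_le v z ((poleOrder v x : ℤ) + s).toNat (fun j => by
        rw [Int.toNat_of_nonneg (by positivity)]
        rcases j with a | i
        · have h3 := npole_le v x a.succ
          rw [hxs] at h3
          linarith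
        · rw [hinv i, v.ord_inv]
          have h3 : v.ord (u i.1) + ((e i.1 + 1 : ℕ) : ℤ) * poleOrder v x ≤ s := by
            rw [hs]
            exact Finset.single_le_sum (f := fun i : {i // i ∉ Z} =>
              v.ord (u i.1) + ((e i.1 + 1 : ℕ) : ℤ) * poleOrder v x)
              (fun i _ => huord v i.1 i.2) (Finset.mem_univ i)
          have h4 : -(((e i.1 + 1 : ℕ) : ℤ) * poleOrder v x) ≤ 0 := by
            rw [neg_nonpos]
            positivity
          have h5 : (0 : ℤ) ≤ ((e i.1 + 1 : ℕ) : ℤ) * poleOrder v x := by positivity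
          have h6 : (0 : ℤ) ≤ poleOrder v x := by positivity
          linarith)
      have h3 : (0 : ℤ) ≤ (poleOrder v x : ℤ) + s := by positivity
      have h4 : (poleOrder v z : ℤ) ≤ ((((poleOrder v x : ℤ) + s).toNat : ℕ) : ℤ) := by
        exact_mod_cast h2
      rw [Int.toNat_of_nonneg h3] at h4
      exact h4
    have f3 : (Function.support fun v : DV k K => (poleOrder v x : ℤ)).Finite := by
      refine (pfi k K htr _ x).subset fun v hv => ?_
      simpa using hv
    have f3' : (Function.support fun v : DV k K => (poleOrder v z : ℤ)).Finite := by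
      refine (pfi k K htr _ z).subset fun v hv => ?_
      simpa using hv
    have f4 : ∀ m : ℤ, (Function.support fun v : DV k K => m * (poleOrder v x : ℤ)).Finite := by
      intro m
      refine f3.subset fun v hv => ?_
      exact right_ne_zero_of_mul hv
    have f5 : ∀ i : {i // i ∉ Z}, (Function.support fun v : DV k K =>
        v.ord (u i.1) + ((e i.1 + 1 : ℕ) : ℤ) * poleOrder v x).Finite := by
      intro i
      exact ((pfm k K htr (u i.1)).1.union (f4 _)).subset (Function.support_add _ _)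
    have f6 : (Function.support fun v : DV k K =>
        ∑ i : {i // i ∉ Z}, (v.ord (u i.1) + ((e i.1 + 1 : ℕ) : ℤ) * poleOrder v x)).Finite := by
      refine (Set.finite_iUnion f5).subset fun v hv => ?_
      obtain ⟨i, _, hi⟩ := Finset.exists_ne_zero_of_sum_ne_zero hv
      exact Set.mem_iUnion.2 ⟨i, hi⟩
    have f7 : (Function.support fun v : DV k K => (poleOrder v x : ℤ) +
        ∑ i : {i // i ∉ Z}, (v.ord (u i.1) + ((e i.1 + 1 : ℕ) : ℤ) * poleOrder v x)).Finite :=
      (f3.union f6).subset (Function.support_add _ _)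
    have h1 : 0 ≤ ∑ᶠ v : DV k K, ((poleOrder v x : ℤ) + ∑ i : {i // i ∉ Z},
        (v.ord (u i.1) + ((e i.1 + 1 : ℕ) : ℤ) * poleOrder v x) - poleOrder v z) := by
      refine finsum_nonneg fun v => ?_
      have := hpole v
      linarith
    rw [finsum_sub_distrib f7 f3', finsum_add_distrib f3 f6,
      finsum_sum_comm _ _ (fun i _ => f5 i), ← cast_deg htr, ← cast_deg htr] at h1
    have h2 : ∀ i : {i // i ∉ Z}, ∑ᶠ v : DV k K, (v.ord (u i.1) +
        ((e i.1 + 1 : ℕ) : ℤ) * poleOrder v x) = ((e i.1 + 1 : ℕ) : ℤ) * deg k x := by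
      intro i
      rw [finsum_add_distrib (pfm k K htr (u i.1)).1 (f4 _), (pfm k K htr (u i.1)).2, zero_add,
        cast_deg htr x]
      exact (mul_finsum _ _).symm
    simp only [h2] at h1
    rw [← Finset.sum_mul] at h1
    have h3 : ∑ i : {i // i ∉ Z}, ((e i.1 + 1 : ℕ) : ℤ) ≤ ((∑ i, (e i + 1) : ℕ) : ℤ) := by
      have h4 : ∑ i : {i // i ∉ Z}, (e i.1 + 1) ≤ ∑ i, (e i + 1) := by
        rw [← Finset.sum_subtype (Finset.univ.filter fun i => i ∉ Z) (by simp)
          (fun i => e i + 1)]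
        exact Finset.sum_le_sum_of_subset (Finset.filter_subset _ _)
      exact_mod_cast h4
    have h5 : (∑ i : {i // i ∉ Z}, ((e i.1 + 1 : ℕ) : ℤ)) * deg k x ≤
        ((∑ i, (e i + 1) : ℕ) : ℤ) * deg k x := mul_le_mul_of_nonneg_right h3 (by positivity)
    have h6 : (deg k z : ℤ) ≤ (((1 + ∑ i, (e i + 1)) * deg k x : ℕ) : ℤ) := by
      push_cast at h1 h5 ⊢
      linarith
    exact_mod_cast h6
  · rintro ⟨j, hj⟩
    by_contra hc
    push Not at hc
    apply hj
    choose y hy using hc
    have hxy : x = fun i => algebraMap k K (y i) := funext fun i => (hy i).symm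
    rcases j with a | i
    · exact ⟨y a.succ, by rw [hy, hxs]⟩
    · refine ⟨(eval y (frmT c i.1))⁻¹, ?_⟩
      rw [hinv i, map_inv₀]
      congr 1
      rw [← hui, hxy]
      unfold upT up
      exact (eval_evk_map (K := K) y (frmT c i.1)).symm

end Pool.Agent.H52.CI
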