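import Pool.Agent.H17.CI.TargetsD
import Pool.Agent.H90.VG.DB

/-!
# MP_70ba79_ag: row ROW of the board `ci_modules`: combinations of the rows
-/

set_option autoImplicit false

namespace Pool.Agent.H52.CI

open MvPolynomial SC Pool.Agent.H27.LV Pool.Agent.H17.VG Pool.Agent.H17.CI
open Pool.Agent.H92.VG (lift_velocity)
open Pool.Agent.H90.VG (eval_dir D_eval)

theorem pf_ROW (hLL : T_LL) (hEV : T_EV) : T_ROW := by
  classical
  intro R k K _ _ _ _ _ _ _ _ htr n s ι _ e F hF D hD x hx0 Q τ l p j hτ hsym v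
  have hdor := dor k K htr D hD v
  have hge1 : ∀ z : K, z ≠ 0 → ge v (v.ord z - 1 + ordD v D) (D z) := by
    intro z hz
    exact (hdor.2.1.2 z hz).mono (by omega)
  refine ⟨Or.inr (npole_le v x p), fun a => lift_velocity hLL htr D hD x τ hτ.1 v a.succ,
    fun a => ?_, fun hp a => ?_, fun i => ?_⟩
  · by_cases h0 : x a.succ = 0
    · rw [h0, map_zero]
      exact ge_zero v _
    · refine (hge1 _ h0).mono ?_
      have := npole_le v x a.succ
      omega
  · refine hdor.2.1.1 _ ?_
    have := npole_le v x a.succ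
    rw [hp] at this
    simpa using this
  · obtain ⟨u, hu⟩ : ∃ u, u = eval x (upT K F i) := ⟨_, rfl⟩
    obtain ⟨c, hc⟩ : ∃ c, c = τ.1 v.unif / D v.unif := ⟨_, rfl⟩
    have hD0 : D (x 0) = 0 := by
      rw [hx0]
      exact D.map_one_eq_zero
    have hV0 : opV τ x 0 = 0 := by
      unfold opV
      rw [hx0, τ.1.map_one_eq_zero, zero_sub, neg_eq_zero]
      refine Finset.sum_eq_zero fun j _ => ?_
      rw [hsym.1 j, zero_mul]
    have h2 : ∑ a : Fin n, eval x (pderiv a.succ (upT K F i)) * D (x a.succ) = D u := by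
      rw [hu]
      have h1 := D_eval hEV D (F i) x
      rw [Fin.sum_univ_succ, hD0, mul_zero, zero_add] at h1
      exact h1.symm
    have h3 : τ.1 u = x p * eval x (upT K (Q j) i) - l i * u +
        ∑ a : Fin n, eval x (pderiv a.succ (upT K F i)) * opV τ x a.succ := by
      have h1 := hEV R K n τ (upT K F i) x
      rw [eval_dir, Fin.sum_univ_succ, hV0, mul_zero, zero_add, ← hu] at h1
      have h4 : opF τ (upT K F i) = X p * upT K (Q j) i - C (l i) * upT K F i :=
        eq_sub_of_add_eq (hsym.2 i)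
      rw [h4, map_sub, map_mul, map_mul, eval_X, eval_C, ← hu] at h1
      exact h1
    rw [← hu, ← hc]
    refine ⟨?_, h2, fun hu0 => ⟨?_, hge1 u hu0⟩⟩
    · simp only [mul_sub, Finset.sum_sub_distrib]
      have h6 : ∑ a : Fin n, eval x (pderiv a.succ (upT K F i)) * (c * D (x a.succ)) =
          c * D u := by
        rw [← h2, Finset.mul_sum]
        refine Finset.sum_congr rfl fun a _ => by ring
      rw [h6, h3]
      ring
    · rw [hc]
      have h7 := hLL R k K htr τ.1 hτ.1.1 D hD v u
      obtain ⟨b, hb⟩ := hτ.2 i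
      rw [hb]
      have h8 := (ge_const v b).mul (ge_of_ord v (x := u))
      rw [zero_add] at h8
      exact h7.add h8

end Pool.Agent.H52.CI
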